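import Mathlib

namespace Pool.Agent.Results.MP_a76361_lc.Small

open Finset

/-- symmetric monotonic norms on `ℝ^d` -/
structure SymNorm {d : ℕ} (f : (Fin d → ℝ) → ℝ) : Prop where
  add : ∀ x y, f (x + y) ≤ f x + f y
  smul : ∀ (c : ℝ) x, f (c • x) = |c| * f x
  defin : ∀ x, f x = 0 → x = 0
  perm : ∀ (σ : Equiv.Perm (Fin d)) x, f (x ∘ σ) = f x
  mono : ∀ x y, 0 ≤ x → x ≤ y → f x ≤ f y

/-- the covering polyhedron `{x ≥ 0 : A x ≥ b}` -/
def cover {r d : ℕ} (A : Matrix (Fin r) (Fin d) ℝ) (b : Fin r → ℝ) : Set (Fin d → ℝ) :=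
  {x | 0 ≤ x ∧ b ≤ A.mulVec x}

/-- `min_{x ∈ X} f x ≤ α inf_{y ∈ P} f y` for every symmetric monotonic norm `f` -/
def IsPortfolio {d : ℕ} (α : ℝ) (P : Set (Fin d → ℝ)) (X : Finset (Fin d → ℝ)) : Prop :=
  (↑X : Set (Fin d → ℝ)) ⊆ P ∧ ∀ f, SymNorm f → ∃ x ∈ X, ∀ y ∈ P, f x ≤ α * f y

variable {d : ℕ} {f : (Fin d → ℝ) → ℝ}

theorem SymNorm.zero (h : SymNorm f) : f 0 = 0 := by simpa using h.smul 0 0

theorem SymNorm.nonneg (h : SymNorm f) {x : Fin d → ℝ} (hx : 0 ≤ x) : 0 ≤ f x :=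
  h.zero ▸ h.mono 0 x le_rfl hx

theorem SymNorm.sum (h : SymNorm f) {ι : Type} (s : Finset ι) (g : ι → Fin d → ℝ) :
    f (∑ i ∈ s, g i) ≤ ∑ i ∈ s, f (g i) :=
  le_sum_of_subadditive f h.zero.le h.add s g

theorem SymNorm.single (h : SymNorm f) (i j : Fin d) :
    f (Pi.single i 1) = f (Pi.single j 1) := by
  rw [← h.perm (Equiv.swap i j)]
  congr 1
  funext k
  simp only [Function.comp, Pi.single_apply, Equiv.swap_apply_eq_iff, Equiv.swap_apply_left]

theorem SymNorm.const (h : SymNorm f) (i : Fin d) {c : ℝ} (hc : 0 ≤ c) :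
    f (fun _ => c) ≤ d * (c * f (Pi.single i 1)) := by
  have e : (fun _ => c : Fin d → ℝ) = ∑ j, c • (Pi.single j 1 : Fin d → ℝ) := by
    funext k; simp [Pi.single_apply]
  rw [e]
  refine (h.sum _ _).trans (le_of_eq ?_)
  rw [sum_congr rfl fun j _ => by rw [h.smul, abs_of_nonneg hc, h.single j i]]
  simp

theorem SymNorm.coord (h : SymNorm f) (i : Fin d) {y : Fin d → ℝ} (hy : 0 ≤ y) :
    ‖y‖ * f (Pi.single i 1) ≤ f y := by
  obtain ⟨j, -, hj⟩ := exists_max_image univ y ⟨i, mem_univ _⟩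
  have h1 : ‖y‖ ≤ y j := (pi_norm_le_iff_of_nonneg (hy j)).2 fun k => by
    rw [Real.norm_of_nonneg (hy k)]; exact hj k (mem_univ _)
  rw [h.single i j, ← abs_of_nonneg (norm_nonneg y), ← h.smul]
  refine h.mono _ _ (fun k => ?_) fun k => ?_
  · simp only [Pi.smul_apply, Pi.single_apply, smul_eq_mul, Pi.zero_apply]
    split_ifs <;> simp
  · simp only [Pi.smul_apply, Pi.single_apply, smul_eq_mul]
    split_ifs with c
    · rw [c, mul_one]; exact h1
    · rw [mul_zero]; exact hy k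

noncomputable def desc (x : Fin d → ℝ) (k : Fin d) : ℝ := x (Tuple.sort x k.rev)

theorem desc_anti (x : Fin d → ℝ) : Antitone (desc x) := fun _ _ h =>
  Tuple.monotone_sort x (Fin.rev_le_rev.2 h)

theorem SymNorm.desc (h : SymNorm f) (x : Fin d → ℝ) : f (desc x) = f x :=
  h.perm (Fin.revPerm.trans (Tuple.sort x)) x

theorem SymNorm.stretch (h : SymNorm f) {u : Fin d → ℝ} (hu : 0 ≤ u) {β : ℕ} (hβ : 0 < β) :
    f (fun i => u ⟨i.val / β, (Nat.div_le_self _ _).trans_lt i.2⟩) ≤ β * f u := by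
  have e : (fun i : Fin d => u ⟨i.val / β, (Nat.div_le_self _ _).trans_lt i.2⟩) =
      ∑ r ∈ range β, fun i : Fin d => if i.val % β = r then
        u ⟨i.val / β, (Nat.div_le_self _ _).trans_lt i.2⟩ else 0 := by
    funext i
    simp [Finset.sum_apply, Nat.mod_lt _ hβ]
  rw [e]
  refine (h.sum _ _).trans ((sum_le_card_nsmul _ _ (f u) fun r _ => ?_).trans (by simp))
  obtain ⟨σ, hσ⟩ := Equiv.Perm.exists_extending_pair (α := {i : Fin d // i.val % β = r})
    (f := Subtype.val) (g := fun i => (⟨i.1.val / β, (Nat.div_le_self _ _).trans_lt i.1.2⟩ : Fin d))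
    Subtype.val_injective (fun a b e => by
      apply Subtype.ext; apply Fin.ext
      have e' : a.1.val / β = b.1.val / β := congrArg Fin.val e
      rw [← Nat.div_add_mod a.1.val β, ← Nat.div_add_mod b.1.val β, e', a.2, b.2])
  rw [← h.perm σ u]
  refine h.mono _ _ (fun i => ?_) fun i => ?_
  · simp only [Pi.zero_apply]; split_ifs; exacts [hu _, le_rfl]
  · simp only [Function.comp]
    split_ifs with c
    · rw [hσ ⟨i, c⟩]
    · exact hu _

theorem core (β : ℕ) (hβ : 2 ≤ β) (hd : 0 < d) (P : Set (Fin d → ℝ)) (hP : IsClosed P)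
    (hne : P.Nonempty) (h0 : ∀ y ∈ P, 0 ≤ y) : ∃ X : Finset (Fin d → ℝ),
      IsPortfolio (1 + β ^ 2) P X ∧ #X ≤ 32 * 8 ^ Nat.log β d := by
  classical
  obtain ⟨y0, hy0, hm⟩ := hP.exists_infDist_eq_dist hne 0
  have hmin : ∀ y ∈ P, ‖y0‖ ≤ ‖y‖ := fun y hy => by
    have := Metric.infDist_le_dist_of_mem (x := (0 : Fin d → ℝ)) hy
    rw [hm] at this
    simpa using this
  have hα : (1 : ℝ) ≤ 1 + β ^ 2 := by nlinarith [sq_nonneg (β : ℝ)]
  by_cases hz : y0 = 0
  · refine ⟨{y0}, ⟨by simpa using hy0, fun f hf => ⟨y0, mem_singleton_self _, fun y hy => ?_⟩⟩, ?_⟩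
    · rw [hz, hf.zero]; have := hf.nonneg (h0 y hy); positivity
    · have : 0 < 8 ^ Nat.log β d := by positivity
      rw [card_singleton]; omega
  have hdr : (0 : ℝ) < d := by exact_mod_cast hd
  have hβr : (2 : ℝ) ≤ β := by exact_mod_cast hβ
  set θ : ℝ := ‖y0‖ / d with hθ
  have hθ0 : 0 < θ := div_pos (norm_pos_iff.2 hz) hdr
  have hex : ∀ v : ℝ, ∃ t : ℕ, v ≤ θ * β ^ t := fun v => by
    obtain ⟨t, ht⟩ := pow_unbounded_of_one_lt (v / θ) (show (1 : ℝ) < β by linarith)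
    exact ⟨t, by rw [div_lt_iff₀ hθ0] at ht; linarith⟩
  set L := Nat.log β d + 1 with hL
  have hpos : ∀ j : Fin L, β ^ j.val - 1 < d := fun j => by
    have a1 : β ^ j.val ≤ d := Nat.pow_le_of_le_log hd.ne' (by have := j.2; omega)
    omega
  let lev : (Fin d → ℝ) → Fin L → ℕ := fun y j => Nat.find (hex (desc y ⟨_, hpos j⟩))
  have hlev : ∀ y ∈ P, ‖y‖ ≤ d * ‖y0‖ → ∀ j, lev y j ≤ 2 * L := by
    intro y hy h j
    apply Nat.find_min'
    have a1 : desc y ⟨_, hpos j⟩ ≤ ‖y‖ := (le_abs_self _).trans (norm_le_pi_norm y _)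
    have a2 : (d : ℝ) ≤ β ^ L := by exact_mod_cast (Nat.lt_pow_succ_log_self (by omega) d).le
    have a3 : ‖y0‖ = θ * d := by rw [hθ]; field_simp
    rw [two_mul, pow_add]
    have a4 : (d : ℝ) * d ≤ β ^ L * β ^ L := mul_le_mul a2 a2 hdr.le (by positivity)
    rw [a3] at h
    nlinarith
  have hanti : ∀ y, Antitone (lev y) := by
    intro y j j' hj
    refine Nat.find_mono fun t ht => le_trans (desc_anti y ?_) ht
    have : β ^ j.val ≤ β ^ j'.val := Nat.pow_le_pow_right (by omega) hj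
    show β ^ j.val - 1 ≤ β ^ j'.val - 1
    omega
  let G : (Fin d → ℝ) → Fin L → ℕ := fun y j => j.val + (2 * L - lev y j)
  have hG : ∀ y, StrictMono (G y) := by
    intro y j j' hj
    have := hanti y hj.le
    have : j.val < j'.val := hj
    simp only [G]; omega
  let rep : Finset ℕ → Fin d → ℝ := fun S =>
    if h : ∃ y ∈ P, ‖y‖ ≤ d * ‖y0‖ ∧ univ.image (G y) = S then h.choose else y0
  have hcmp : ∀ f, SymNorm f → ∀ x ∈ P, ∀ y ∈ P, lev x = lev y → f x ≤ (1 + β ^ 2) * f y := by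
    intro f hf x hx y hy e
    have hx0 : 0 ≤ desc x := fun k => h0 x hx (Tuple.sort x k.rev)
    have hy0' : 0 ≤ desc y := fun k => h0 y hy (Tuple.sort y k.rev)
    have b1 : desc x ≤ (fun _ => θ) +
        (β : ℝ) • fun i : Fin d => desc y ⟨i.val / β, (Nat.div_le_self _ _).trans_lt i.2⟩ := by
      intro i
      let j : Fin L := ⟨Nat.log β (i.val + 1), Nat.lt_succ_of_le (Nat.log_mono_right i.2)⟩
      have c1 : β ^ j.val ≤ i.val + 1 := Nat.pow_log_le_self β (by omega)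
      have c2 : i.val + 1 < β ^ (j.val + 1) := Nat.lt_pow_succ_log_self (by omega) _
      have c3 : i.val / β < β ^ j.val := by
        rw [Nat.div_lt_iff_lt_mul (by omega), ← pow_succ]; omega
      have c4 : desc x i ≤ desc x ⟨_, hpos j⟩ := desc_anti x (by show β ^ j.val - 1 ≤ i.val; omega)
      have c5 : desc y ⟨_, hpos j⟩ ≤ desc y ⟨i.val / β, (Nat.div_le_self _ _).trans_lt i.2⟩ :=
        desc_anti y (by show i.val / β ≤ β ^ j.val - 1; omega)
      have c6 : desc x ⟨_, hpos j⟩ ≤ θ * β ^ lev x j := Nat.find_spec (hex _)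
      have c7 := hy0' ⟨_, hpos j⟩
      simp only [Pi.add_apply, Pi.smul_apply, smul_eq_mul, Pi.zero_apply] at c7 ⊢
      rw [e] at c6
      rcases ht : lev y j with _ | t
      · rw [ht] at c6
        have := mul_nonneg (show (0 : ℝ) ≤ β by linarith) (c7.trans c5)
        simp only [pow_zero, mul_one] at c6
        linarith
      · have c8 : ¬ desc y ⟨_, hpos j⟩ ≤ θ * β ^ t := Nat.find_min (hex _) (by
          show t < lev y j
          omega)
        rw [ht, pow_succ] at c6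
        nlinarith [not_le.1 c8]
    have b2 := (hf.mono _ _ hx0 b1).trans (hf.add _ _)
    rw [hf.desc, hf.smul, abs_of_nonneg (by linarith)] at b2
    have b3 := hf.stretch hy0' (show 0 < β by omega)
    rw [hf.desc] at b3
    have b4 := hf.const ⟨0, hd⟩ hθ0.le
    have b5 := hf.coord ⟨0, hd⟩ (h0 y hy)
    have b6 : 0 ≤ f (Pi.single ⟨0, hd⟩ 1) := hf.nonneg (Pi.single_nonneg.2 zero_le_one)
    have b7 : (d : ℝ) * (θ * f (Pi.single ⟨0, hd⟩ 1)) = ‖y0‖ * f (Pi.single ⟨0, hd⟩ 1) := by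
      rw [hθ]; field_simp
    have b8 := mul_le_mul_of_nonneg_right (hmin y hy) b6
    nlinarith
  refine ⟨insert y0 ((range (3 * L + 1)).powerset.image rep), ⟨?_, fun f hf => ?_⟩, ?_⟩
  · intro x hx
    rcases mem_insert.1 hx with rfl | hx
    · exact hy0
    · obtain ⟨S, -, rfl⟩ := mem_image.1 hx
      simp only [rep]
      split_ifs with h
      · exact h.choose_spec.1
      · exact hy0
  · obtain ⟨x, hx, hx'⟩ := exists_min_image
      (insert y0 ((range (3 * L + 1)).powerset.image rep)) f (insert_nonempty _ _)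
    refine ⟨x, hx, fun y hy => ?_⟩
    by_cases c : ‖y‖ ≤ d * ‖y0‖
    · have h : ∃ y' ∈ P, ‖y'‖ ≤ d * ‖y0‖ ∧ univ.image (G y') = univ.image (G y) := ⟨y, hy, c, rfl⟩
      have h1 : rep (univ.image (G y)) = h.choose := dif_pos h
      obtain ⟨h2, h3, h4⟩ := h.choose_spec
      refine (hx' _ (mem_insert_of_mem (mem_image_of_mem rep (a := univ.image (G y)) ?_))).trans ?_
      · rw [mem_powerset]
        intro t ht
        obtain ⟨j, -, rfl⟩ := mem_image.1 ht
        have := j.2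
        simp only [G, mem_range]; omega
      · rw [h1]
        refine hcmp f hf _ h2 y hy (funext fun j => ?_)
        have h5 : G h.choose = G y := ((hG _).range_inj (hG _)).1 (by
          simpa using congrArg (fun s : Finset ℕ => (s : Set ℕ)) h4)
        have h6 := congrFun h5 j
        have := hlev _ h2 h3 j
        have := hlev _ hy c j
        simp only [G] at h6
        omega
    · refine (hx' _ (mem_insert_self _ _)).trans ?_
      have b1 := hf.mono y0 (fun _ => ‖y0‖) (h0 _ hy0)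
        fun k => (le_abs_self _).trans (norm_le_pi_norm y0 k)
      have b4 := hf.const ⟨0, hd⟩ (norm_nonneg y0)
      have b5 := hf.coord ⟨0, hd⟩ (h0 y hy)
      have b6 : 0 ≤ f (Pi.single ⟨0, hd⟩ 1) := hf.nonneg (Pi.single_nonneg.2 zero_le_one)
      have b8 := mul_le_mul_of_nonneg_right (not_le.1 c).le b6
      have b9 := hf.nonneg (h0 y hy)
      nlinarith
  · refine (card_insert_le _ _).trans ?_
    have a1 := card_image_le (s := (range (3 * L + 1)).powerset) (f := rep)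
    rw [card_powerset, card_range] at a1
    have a2 : 2 ^ (3 * L + 1) = 16 * 8 ^ Nat.log β d := by
      rw [hL, show 3 * (Nat.log β d + 1) + 1 = 4 + 3 * Nat.log β d by ring, pow_add, pow_mul]
      norm_num
    have : 0 < 8 ^ Nat.log β d := by positivity
    omega

theorem main (δ : ℝ) (hδ : 0 < δ) : ∃ α : ℝ, ∀ᶠ d : ℕ in Filter.atTop,
    ∀ P : Set (Fin d → ℝ), IsClosed P → P.Nonempty → (∀ y ∈ P, 0 ≤ y) →
      ∃ X : Finset (Fin d → ℝ), IsPortfolio α P X ∧ (#X : ℝ) < (d : ℝ) ^ δ := by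
  have ht := (tendsto_rpow_atTop (half_pos hδ)).comp tendsto_natCast_atTop_atTop
  obtain ⟨β, h1, h2⟩ := ((ht.eventually_ge_atTop 8).and (Filter.eventually_ge_atTop 2)).exists
  refine ⟨1 + β ^ 2, ?_⟩
  filter_upwards [ht.eventually_gt_atTop 32, Filter.eventually_gt_atTop 0] with d h3 hd P a1 a2 a3
  obtain ⟨X, b1, b2⟩ := core β h2 hd P a1 a2 a3
  refine ⟨X, b1, ?_⟩
  simp only [Function.comp] at h1 h3
  have hdr : (0 : ℝ) < d := by exact_mod_cast hd
  have c1 : (8 : ℝ) ^ Nat.log β d ≤ (d : ℝ) ^ (δ / 2) := by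
    refine (pow_le_pow_left₀ (by norm_num) h1 _).trans ?_
    rw [← Real.rpow_natCast, ← Real.rpow_mul (by positivity), mul_comm,
      Real.rpow_mul (by positivity), Real.rpow_natCast]
    exact Real.rpow_le_rpow (by positivity)
      (by exact_mod_cast Nat.pow_log_le_self β hd.ne') (half_pos hδ).le
  have c2 : (#X : ℝ) ≤ 32 * 8 ^ Nat.log β d := by exact_mod_cast b2
  have c3 : (d : ℝ) ^ δ = (d : ℝ) ^ (δ / 2) * (d : ℝ) ^ (δ / 2) := by
    rw [← Real.rpow_add hdr]; simp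
  rw [c3]
  nlinarith

theorem result :
    (∀ δ : ℝ, 0 < δ → ∃ α : ℝ, ∀ᶠ d : ℕ in Filter.atTop,
      ∀ P : Set (Fin d → ℝ), IsClosed P → P.Nonempty → (∀ y ∈ P, 0 ≤ y) →
        ∃ X : Finset (Fin d → ℝ), IsPortfolio α P X ∧ (#X : ℝ) < (d : ℝ) ^ δ) ∧
    ∀ c δ : ℝ, 0 < c → 0 < δ → ∀ᶠ d : ℕ in Filter.atTop,
      ∀ (r : ℕ) (A : Matrix (Fin r) (Fin d) ℝ) (b : Fin r → ℝ), (∀ i j, 0 ≤ A i j) → 0 ≤ b →
        (cover A b).Nonempty → ∃ X : Finset (Fin d → ℝ),
          IsPortfolio (c * Real.log d) (cover A b) X ∧ (#X : ℝ) < (d : ℝ) ^ δ := by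
  refine ⟨main, fun c δ hc hδ => ?_⟩
  obtain ⟨α, h⟩ := main δ hδ
  have ht := (Real.tendsto_log_atTop.comp tendsto_natCast_atTop_atTop).const_mul_atTop hc
  filter_upwards [h, ht.eventually_ge_atTop α] with d h1 h2 r A b _ _ hne
  obtain ⟨X, ⟨b1, b2⟩, b3⟩ := h1 (cover A b)
    ((isClosed_le continuous_const continuous_id).inter
      (isClosed_le continuous_const (continuous_const.matrix_mulVec continuous_id))) hne fun y hy => hy.1
  refine ⟨X, ⟨b1, fun f hf => ?_⟩, b3⟩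
  obtain ⟨x, hx, h3⟩ := b2 f hf
  exact ⟨x, hx, fun y hy => (h3 y hy).trans (mul_le_mul_of_nonneg_right h2 (hf.nonneg hy.1))⟩

end Pool.Agent.Results.MP_a76361_lc.Small
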